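import Pool.Agent.N375.AV.D
import Pool.Agent.N375.AV.Ex
import Pool.Agent.Results.MP_7ecdd4_nt.SimultaneousApproximations

/-!
# The strong `n`-conjecture near the values of additive functions and their compositions

Let `F = f_1 ∘ ⋯ ∘ f_k` be a composition of functions dominated by the largest prime factor: for example additive functions
`f` with `f (q^j) ≤ C q^j` at the prime powers, with different values at different large primes (the sum of the prime
factors), the largest prime factor itself, and Kempner's function. Let `G` have steps bounded below by a positive constant and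
growth at most `v ^ d`, for example `G v = v` or `a v^d`. Let `n ≥ 4`, `A > 0`, `M ≥ 10 / (3 n - 2)`, `κ ≥ 0`,
`s = (3 n - 5) / ((3 n - 2) M)` and `d A s + κ < 1`. For all `m ≤ N` but `C N exp (- c (log N)^(1 / (k + 1)))`, EVERY tuple `x` of
`n` nonzero pairwise coprime integers with sum zero, for which `x_1 ⋯ x_n` has a divisor `r` with `|r - G (F m)| ≤ F(m) ^ κ` and
`max |x_j| ≤ r ^ A`, satisfies `max |x_j| ≤ rad (x_1 ⋯ x_n) ^ M`. For `A ≥ 1` this includes all the tuples of a height within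
`F(m) ^ κ` of `G (F m)`. The values of `F` are taken with very large multiplicities and `F(m)` is in general much smaller than
`m`; and so this does not follow from the number of the exceptional tuples.
-/

set_option autoImplicit false

namespace Pool.Agent.Results.MP_7ecdd4_nt.AdditiveDivisorsH35

open Finset
open Pool.Agent.Results.MP_7ecdd4_nt.DivisorsInWindows (Admissible rad height Good hcount κ_nonneg)
open Pool.Agent.Results.MP_7ecdd4_nt.SimultaneousApproximations (good_height)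
open Pool.Agent.N733.TG (Expanding expanding_pow)
open Pool.Agent.N375.AV (PD comp win_nat pd_additive pd_largest pd_kempner)

/-- **Theorem.** Let `n ≥ 4`, `f_1, …, f_k` functions dominated by the largest prime factor (`PD`), `F = f_1 ∘ ⋯ ∘ f_k` their
composition (`comp fs`), `G` with steps `≥ const > 0` and growth at most `v ^ d`, `A > 0`, `M ≥ 10 / (3 n - 2)`, `κ ≥ 0` and
`d A s + κ < 1`, `s = (3 n - 5) / ((3 n - 2) M)`. (1) For all `m ≤ N` but `C N exp (- c (log N)^(1 / (k + 1)))`, EVERY tuple `x` of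
`n` nonzero pairwise coprime integers with sum zero satisfies `max |x_j| ≤ rad (x_1 ⋯ x_n) ^ M` if `x_1 ⋯ x_n` has a divisor `r`
with `|r - G (F m)| ≤ F(m) ^ κ`, `max |x_j| ≤ r ^ A`, or if `A ≥ 1` and `|max |x_j| - G (F m)| ≤ F(m) ^ κ`.
(2) - (4) Examples of functions `f_i` and `G`. -/
theorem result :
    (∀ n : ℕ, 4 ≤ n → ∀ fs : List (ℕ → ℕ), (∀ f ∈ fs, PD f) → ∀ (G : ℕ → ℝ) (d : ℝ), Expanding G d →
      ∀ A M κ : ℝ, 0 < A → 10 / (3 * (n : ℝ) - 2) ≤ M → 0 ≤ κ →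
      d * (A * ((3 * (n : ℝ) - 5) / (3 * (n : ℝ) - 2) / M)) + κ < 1 → ∃ c C : ℝ, 0 < c ∧ ∀ N : ℕ, 1 ≤ N →
        ({m : ℕ | 1 ≤ m ∧ m ≤ N ∧ ¬ (
          (∀ r : ℕ, |(r : ℝ) - G (comp fs m)| ≤ (comp fs m : ℝ) ^ κ → Good n A M r) ∧
          (1 ≤ A → ∀ x : Fin n → ℤ, Admissible x → |height x - G (comp fs m)| ≤ (comp fs m : ℝ) ^ κ →
            height x ≤ (rad x : ℝ) ^ M))}.ncard : ℝ) ≤
        C * N * Real.exp (-(c * Real.log N ^ ((1 : ℝ) / (fs.length + 1))))) ∧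
    (∀ f : ℕ → ℕ, (∀ a b : ℕ, Nat.Coprime a b → f (a * b) = f a + f b) →
      (∃ C : ℕ, ∀ q j : ℕ, q.Prime → 1 ≤ j → f (q ^ j) ≤ C * q ^ j) →
      (∃ P : ℕ, ∀ p q : ℕ, p.Prime → q.Prime → P ≤ p → P ≤ q → f p = f q → p = q) → PD f) ∧
    (PD (fun n => n.primeFactors.sup id) ∧ PD (fun n => sInf {k : ℕ | n ∣ k.factorial})) ∧
    ∀ a d : ℝ, 0 < a → 1 ≤ d → Expanding (fun v => a * (v : ℝ) ^ d) d := by
  refine ⟨fun n hn fs hfs G d hG A M κ hA hM hκ h1 => ?_, fun f a1 a2 a3 => pd_additive a1 a2 a3,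
    ⟨pd_largest, pd_kempner⟩, fun a d ha hd => expanding_pow ha hd⟩
  have h4 : (4 : ℝ) ≤ n := by exact_mod_cast hn
  have hs0 : 0 ≤ (3 * (n : ℝ) - 5) / (3 * (n : ℝ) - 2) / M :=
    div_nonneg (κ_nonneg hn) (le_trans (div_nonneg (by norm_num) (by linarith)) hM)
  have hcd := Pool.Agent.R559.NP.count_div (n := n)
    (Bad := fun x : Fin n → ℤ => Admissible x ∧ ¬ height x ≤ (rad x : ℝ) ^ M)
    (fun x hx => hx.1.1) hA (fun δ hδ => hcount hn hM δ hδ)
  obtain ⟨c, C, hc, hC⟩ := win_nat (Pool.Agent.R559.NP.DivBad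
    (fun x : Fin n → ℤ => Admissible x ∧ ¬ height x ≤ (rad x : ℝ) ^ M) A) fs hfs hG
    (mul_nonneg hA.le hs0) hκ h1 (fun ε hε => by
      obtain ⟨C, hC⟩ := hcd ε hε
      refine ⟨C, fun X hX => le_trans (le_of_eq ?_) (hC X hX)⟩
      congr!)
  refine ⟨c, C, hc, fun N hN => le_trans ?_ (hC N hN)⟩
  have hfin : {m : ℕ | 1 ≤ m ∧ m ≤ N ∧ ∃ r : ℕ, (r = 0 ∨ r ∈ Pool.Agent.R559.NP.DivBad
      (fun x : Fin n → ℤ => Admissible x ∧ ¬ height x ≤ (rad x : ℝ) ^ M) A) ∧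
      |(r : ℝ) - G (comp fs m)| ≤ (comp fs m : ℝ) ^ κ}.Finite := by
    apply (Set.finite_Icc 1 N).subset
    intro m hm
    exact ⟨hm.1, hm.2.1⟩
  have hgood : ∀ m : ℕ, (∀ r : ℕ, |(r : ℝ) - G (comp fs m)| ≤ (comp fs m : ℝ) ^ κ → Good n A M r) →
      (∀ r : ℕ, |(r : ℝ) - G (comp fs m)| ≤ (comp fs m : ℝ) ^ κ → Good n A M r) ∧
      (1 ≤ A → ∀ x : Fin n → ℤ, Admissible x → |height x - G (comp fs m)| ≤ (comp fs m : ℝ) ^ κ →
        height x ≤ (rad x : ℝ) ^ M) := fun m hm =>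
    ⟨hm, fun hA1 x hx hy => good_height (by omega) hA1 hm x hx hy⟩
  have h2 : {m : ℕ | 1 ≤ m ∧ m ≤ N ∧ ¬ (
          (∀ r : ℕ, |(r : ℝ) - G (comp fs m)| ≤ (comp fs m : ℝ) ^ κ → Good n A M r) ∧
          (1 ≤ A → ∀ x : Fin n → ℤ, Admissible x → |height x - G (comp fs m)| ≤ (comp fs m : ℝ) ^ κ →
            height x ≤ (rad x : ℝ) ^ M))} ⊆
      {m : ℕ | 1 ≤ m ∧ m ≤ N ∧ ∃ r : ℕ, (r = 0 ∨ r ∈ Pool.Agent.R559.NP.DivBad
      (fun x : Fin n → ℤ => Admissible x ∧ ¬ height x ≤ (rad x : ℝ) ^ M) A) ∧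
      |(r : ℝ) - G (comp fs m)| ≤ (comp fs m : ℝ) ^ κ} := by
    rintro m ⟨b1, b2, b3⟩
    refine ⟨b1, b2, ?_⟩
    by_contra hcon
    push Not at hcon
    apply b3
    apply hgood m
    intro r hr x hx hd hh
    by_contra hbad
    exact absurd hr (not_le.2 (hcon r (Or.inr ⟨x, ⟨hx, not_le.1 hbad⟩, hh, hd⟩)))
  exact_mod_cast Set.ncard_le_ncard h2 hfin

end Pool.Agent.Results.MP_7ecdd4_nt.AdditiveDivisorsH35
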