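import Pool.Agent.V7H9.SN.Fin

/-!
# An asymptotic formula for the number of the pairwise coprime tuples with a small radical

Let `n = m + 1 ≥ 3` and `K > 1/n`. For EVERY nondecreasing function `φ > 0` the number of the
admissible `n`-tuples (nonzero pairwise coprime integers with sum zero) with radical
`R = rad (x_1 ⋯ x_n) ≤ X`, height at most `X ^ K` and `max |x_i| ≥ φ (R) R ^ (1/n)` is the integral
of `G (φ (u ^ (n/(n-1))))` over `1 ≤ u ≤ X ^ ((n-1)/n)`, with an explicit function `G` and an error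
`O (X ^ ((n-1)/n - ν))` that does not depend on `φ`. So for `1/n < M < 1/n + ν` the number of the
tuples with `max |x_i| ≥ R ^ M` is asymptotic to an explicit integral of the order of magnitude
`X ^ (1 - M)` up to `X ^ ε`, and for every `M > 1/n` almost all of the tuples satisfy
`max |x_i| < R ^ M`, with a power saving in the number of the exceptions.
-/

set_option autoImplicit false

namespace Pool.Agent.Results.MP_7ecdd4_nt.ExceptionAsymptoticsH9

open Finset Filter Topology MeasureTheory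

/-- `x` is an admissible tuple: nonzero pairwise coprime integers with sum zero. -/
def Admissible {n : ℕ} (x : Fin n → ℤ) : Prop :=
  (∀ i, x i ≠ 0) ∧ (∀ i j, i ≠ j → IsCoprime (x i) (x j)) ∧ ∑ i, x i = 0

/-- The radical of the product of all entries: the product of the primes dividing it. -/
def radical {n : ℕ} (x : Fin n → ℤ) : ℕ := ∏ p ∈ (∏ i, x i).natAbs.primeFactors, p

/-- The admissible `n`-tuples with radical at most `X` and entries at most `X ^ K` in absolute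
value. -/
def Tuples (n : ℕ) (K X : ℝ) : Set (Fin n → ℤ) :=
  {x | Admissible x ∧ (radical x : ℝ) ≤ X ∧ ∀ i, |(x i : ℝ)| ≤ X ^ K}

/-- The tuples of radical `R ≤ X` and height at most `X ^ K` with
`max |x_i| ≥ φ (R) R ^ (1/n)`. -/
def high (n : ℕ) (K : ℝ) (φ : ℝ → ℝ) (X : ℝ) : Set (Fin n → ℤ) :=
  {x | x ∈ Tuples n K X ∧
    ∃ j, φ (radical x : ℝ) * (radical x : ℝ) ^ (1 / (n : ℝ)) ≤ |(x j : ℝ)|}

/-- The exceptions: the tuples of radical `R ≤ X` and height at most `X ^ K` with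
`max |x_i| ≥ R ^ M`. -/
def exceptions (n : ℕ) (K M X : ℝ) : Set (Fin n → ℤ) :=
  {x | x ∈ Tuples n K X ∧ ∃ j, (radical x : ℝ) ^ M ≤ |(x j : ℝ)|}

/-- The `(m + 1)`-tuple with sum zero whose last `m` entries are `y`. -/
def full {m : ℕ} (y : Fin m → ℝ) : Fin (m + 1) → ℝ := Fin.cons (-∑ j, y j) y

/-- The `y` with `|y_1 ⋯ y_n| ≤ 1` and `z ^ n |y_1 ⋯ y_n| ≤ w max |y_j| ^ n`, where
`(y_1, …, y_n)`, `n = m + 1`, is the tuple with sum zero whose last `m` entries are `y`. -/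
def Region (m : ℕ) (z : ℝ) (w : ℕ) : Set (Fin m → ℝ) :=
  {y | ∏ i, |full y i| ≤ 1 ∧ ∃ j, z ^ (m + 1) * ∏ i, |full y i| ≤ (w : ℝ) * |full y j| ^ (m + 1)}

/-- The proportion `((q - 1) ^ k + (-1) ^ k (q - 1)) / q ^ k` of the `k`-tuples modulo the prime
`q` with sum zero all of whose entries are invertible, among the `k`-tuples with sum zero. -/
noncomputable def unit (q k : ℕ) : ℝ :=
  (((q : ℝ) - 1) ^ k + (-1) ^ k * ((q : ℝ) - 1)) / (q : ℝ) ^ k

/-- The local density at `q` of the tuples with at most one entry divisible by `q`, and exactly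
once. -/
noncomputable def dens (n q : ℕ) : ℝ := unit q n + n * (((q : ℝ) - 1) / (q : ℝ) ^ 2) * unit q (n - 1)

/-- The weight of `w`: `w ^ (-1/n)` times the product over the primes `q ∣ w` of the ratio of the
local densities. -/
noncomputable def weight (n w : ℕ) : ℝ :=
  (w : ℝ) ^ (-(1 / (n : ℝ))) *
    ∏ q ∈ w.primeFactors, n * (((q : ℝ) - 1) / (q : ℝ) ^ 2) * unit q (n - 1) / dens n q

/-- The limit distribution of `max |x_i| / rad ^ (1/n)`, `n = m + 1`. -/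
noncomputable def G (m : ℕ) (z : ℝ) : ℝ :=
  ∑' w : ℕ, (∏' q : Nat.Primes, dens (m + 1) q) * weight (m + 1) w *
    (volume (Region m z w)).toReal

/-- The integral of `G (φ (u ^ (n/(n-1))))` over `1 ≤ u ≤ X ^ ((n-1)/n)`, `n = m + 1`. -/
noncomputable def mainTerm (m : ℕ) (φ : ℝ → ℝ) (X : ℝ) : ℝ :=
  ∫ u in (1 : ℝ)..(X ^ ((m : ℝ) / (m + 1))), G m (φ (u ^ (((m : ℝ) + 1) / m)))

open Pool.Agent.V7H9.SN in
lemma gu_eq (q k : ℕ) : gu q k = unit q (k + 1) := rfl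

open Pool.Agent.V7H9.SN in
lemma dd_eq {m q : ℕ} (hm : 1 ≤ m) : dd m q 0 = dens (m + 1) q := by
  unfold dd dens
  rw [if_pos rfl, gu_eq, gu_eq, zero_add, Nat.sub_add_cancel hm, Nat.add_sub_cancel]
  push_cast
  rfl

open Pool.Agent.V7H9.SN in
lemma wgt_eq' {m : ℕ} (hm : 1 ≤ m) (w : ℕ) : wgt m w = weight (m + 1) w := by
  unfold wgt fr weight
  push_cast
  congr 1
  refine prod_congr rfl fun q _ => ?_
  unfold rr
  rw [dd_eq hm, gu_eq, Nat.sub_add_cancel hm]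

open Pool.Agent.V7H9.SN in
lemma G_eq {m : ℕ} (hm : 1 ≤ m) (z : ℝ) : G m z = Gn m z := by
  have hdens : ∏' q : Nat.Primes, dens (m + 1) q = C0 m := tprod_congr fun q => (dd_eq hm).symm
  unfold G Gn LM
  refine tsum_congr fun w => ?_
  rw [hdens, wgt_eq' hm]
  congr 3
  ext y
  exact and_comm

open Pool.Agent.V7H9.SN Pool.Agent.H785R2.ABC in
lemma rad_eq' {n : ℕ} (x : Fin n → ℤ) : radical x = rad (pr x) := by
  unfold radical rad pr
  have : (∏ i, x i).natAbs = ∏ i, (x i).natAbs := map_prod Int.natAbsHom _ _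
  rw [this]

open Pool.Agent.V7H9.SN in
lemma high_eq (m : ℕ) (K : ℝ) (φ : ℝ → ℝ) (X : ℝ) : high (m + 1) K φ X = Hi m K X φ X := by
  ext x
  unfold high Hi Tuples
  rw [Set.mem_ofPred_eq, Set.mem_ofPred_eq, Set.mem_ofPred_eq, rad_eq']
  push_cast
  constructor
  · rintro ⟨⟨a1, a2, a3⟩, a4⟩
    exact ⟨a1, a2, a3, a4⟩
  · rintro ⟨a1, a2, a3, a4⟩
    exact ⟨⟨a1, a2, a3⟩, a4⟩

lemma exc_eq (n : ℕ) (K M X : ℝ) :
    exceptions n K M X = high n K (fun t => t ^ (M - 1 / (n : ℝ))) X := by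
  ext x
  unfold exceptions high
  rw [Set.mem_ofPred_eq, Set.mem_ofPred_eq]
  have h : (0 : ℝ) < radical x := by
    rw [rad_eq']
    exact Pool.Agent.V7H9.SN.radr_pos _
  have e : (radical x : ℝ) ^ M =
      (radical x : ℝ) ^ (M - 1 / (n : ℝ)) * (radical x : ℝ) ^ (1 / (n : ℝ)) := by
    rw [← Real.rpow_add h]
    congr 1
    ring
  rw [e]

lemma exc_anti {n : ℕ} {K M M' X : ℝ} (h : M ≤ M') :
    exceptions n K M' X ⊆ exceptions n K M X := by
  rintro x ⟨h1, j, hj⟩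
  refine ⟨h1, j, le_trans ?_ hj⟩
  have h2 : (1 : ℝ) ≤ radical x := by
    rw [rad_eq']
    exact Pool.Agent.V7H9.SN.radr_one _
  exact Real.rpow_le_rpow_of_exponent_le h2 h

/-- **An asymptotic formula for the number of the exceptions.** Let `n = m + 1 ≥ 3` and `K > 1/n`.
There are `C, ν > 0` such that
(1) for EVERY nondecreasing function `φ > 0` on `[1, ∞)` and all `X ≥ 1` the number of the
admissible `n`-tuples of radical `R ≤ X` and height at most `X ^ K` with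
`max |x_i| ≥ φ (R) R ^ (1/n)` differs from the integral of `G (φ (u ^ (n/(n-1))))` over
`1 ≤ u ≤ X ^ ((n-1)/n)` by at most `C X ^ ((n-1)/n - ν)`;
(2) for `1/n < M < 1/n + ν` the number of the exceptions `max |x_i| ≥ R ^ M` is asymptotic to
the integral of `G (u ^ ((M - 1/n) n/(n-1)))` over `1 ≤ u ≤ X ^ ((n-1)/n)`.
(3) For every `M > 1/n` the number of the exceptions is at most `C' X ^ ((n-1)/n - ν')` with
`C', ν' > 0`.
(4) The integral of (2) is at least `c X ^ (1 - M)` for all `M > 1/n` and `X ≥ 2`, with `c > 0`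
independent of `M`, and at most `C' X ^ (1 - M + ε)` for `M ≤ 1/n + 1/3`, with `C'` depending
on `ε` and `n` only; `G` is positive and nonincreasing on `(0, ∞)`, `G (z) ≥ c / z` for `z ≥ 1`,
and `G (z) ≤ C' z ^ (ε - 1)` for `z > 0`. -/
theorem result (m : ℕ) (hm : 2 ≤ m) (K : ℝ) (hK : 1 / ((m : ℝ) + 1) < K) :
    (∀ X : ℝ, (Tuples (m + 1) K X).Finite) ∧
    (∃ C ν : ℝ, 0 < C ∧ 0 < ν ∧
      (∀ φ : ℝ → ℝ, MonotoneOn φ (Set.Ici 1) → (∀ t : ℝ, 1 ≤ t → 0 < φ t) → ∀ X : ℝ, 1 ≤ X →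
        |((high (m + 1) K φ X).ncard : ℝ) - mainTerm m φ X| ≤
          C * X ^ ((m : ℝ) / (m + 1) - ν)) ∧
      (∀ M : ℝ, 1 / ((m : ℝ) + 1) < M → M < 1 / ((m : ℝ) + 1) + ν →
        Tendsto (fun X : ℝ => ((exceptions (m + 1) K M X).ncard : ℝ) /
          mainTerm m (fun t => t ^ (M - 1 / ((m : ℝ) + 1))) X) atTop (𝓝 1))) ∧
    (∀ M : ℝ, 1 / ((m : ℝ) + 1) < M → ∃ C ν : ℝ, 0 < C ∧ 0 < ν ∧ ∀ X : ℝ, 1 ≤ X →
      ((exceptions (m + 1) K M X).ncard : ℝ) ≤ C * X ^ ((m : ℝ) / (m + 1) - ν)) ∧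
    (∃ c : ℝ, 0 < c ∧
      (∀ M : ℝ, 1 / ((m : ℝ) + 1) < M → ∀ X : ℝ, 2 ≤ X →
        c * X ^ (1 - M) ≤ mainTerm m (fun t => t ^ (M - 1 / ((m : ℝ) + 1))) X) ∧
      (∀ z : ℝ, 1 ≤ z → c / z ≤ G m z)) ∧
    (∀ ε : ℝ, 0 < ε → ε < 1 → ∃ C : ℝ, 0 < C ∧
      (∀ M : ℝ, 1 / ((m : ℝ) + 1) < M → M ≤ 1 / ((m : ℝ) + 1) + 1 / 3 → ∀ X : ℝ, 1 ≤ X →
        mainTerm m (fun t => t ^ (M - 1 / ((m : ℝ) + 1))) X ≤ C * X ^ (1 - M + ε)) ∧
      (∀ z : ℝ, 0 < z → G m z ≤ C * z ^ (ε - 1))) ∧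
    (∀ z : ℝ, 0 < z → 0 < G m z) ∧ (∀ z z' : ℝ, 0 < z → z ≤ z' → G m z' ≤ G m z) := by
  have hm1 : 1 ≤ m := by omega
  have hmr : (2 : ℝ) ≤ m := by exact_mod_cast hm
  obtain ⟨C1, ν, hC1, hν, hν3, h1⟩ := Pool.Agent.V7H9.SN.Hi_final hm hK
  have hmt : ∀ φ X, mainTerm m φ X = ∫ u in (1 : ℝ)..(X ^ ((m : ℝ) / (m + 1))),
      Pool.Agent.V7H9.SN.Gn m (φ (u ^ (((m : ℝ) + 1) / m))) := by
    intro φ X
    unfold mainTerm
    simp only [G_eq hm1]
  have hn : ((m + 1 : ℕ) : ℝ) = (m : ℝ) + 1 := by push_cast; rfl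
  have hpow : ∀ M : ℝ, 1 / ((m : ℝ) + 1) < M →
      MonotoneOn (fun t : ℝ => t ^ (M - 1 / ((m : ℝ) + 1))) (Set.Ici 1) ∧
      ∀ t : ℝ, 1 ≤ t → 0 < t ^ (M - 1 / ((m : ℝ) + 1)) := by
    intro M hM
    refine ⟨fun t ht t' _ htt => ?_, fun t ht => by positivity⟩
    rw [Set.mem_Ici] at ht
    exact Real.rpow_le_rpow (by linarith) htt (by linarith)
  have key : ∀ φ : ℝ → ℝ, MonotoneOn φ (Set.Ici 1) → (∀ t : ℝ, 1 ≤ t → 0 < φ t) → ∀ X : ℝ,
      1 ≤ X → |((high (m + 1) K φ X).ncard : ℝ) - mainTerm m φ X| ≤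
        C1 * X ^ ((m : ℝ) / (m + 1) - ν) := by
    intro φ hφ hφ0 X hX
    rw [high_eq, hmt]
    exact h1 φ hφ hφ0 X hX
  have hexp : ∀ M : ℝ, (m : ℝ) / (m + 1) - (M - 1 / ((m : ℝ) + 1)) = 1 - M := by
    intro M
    field_simp
    ring
  have hfin : ∀ X : ℝ, (Tuples (m + 1) K X).Finite := fun X =>
    (Pool.Agent.V7H9.SN.box_finite (m + 1) (X ^ K)).1.subset fun _ hx => hx.2.2
  obtain ⟨c1, hc1, hlow⟩ := Pool.Agent.V7H9.SN.main_ge hm
  obtain ⟨c2, hc2, hG⟩ := Pool.Agent.V7H9.SN.Gn_ge hm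
  refine ⟨hfin, ⟨C1, ν, hC1, hν, key, fun M hM hMν => ?_⟩, fun M hM => ?_,
    ⟨min c1 c2, lt_min hc1 hc2, fun M hM X hX => ?_, fun z hz => ?_⟩, fun ε hε hε1 => ?_,
    fun z hz => ?_, fun z z' hz hzz => ?_⟩
  · obtain ⟨p1, p2⟩ := hpow M hM
    simp only [exc_eq, hmt, hn]
    exact Pool.Agent.V7H9.SN.ratio hm (δ := M - 1 / ((m : ℝ) + 1)) (ν := ν) hC1 (by linarith)
      (by linarith) fun X hX => by
      have := key _ p1 p2 X hX
      rwa [hmt] at this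
  · -- the bound
    obtain ⟨δ, hδ⟩ : ∃ δ : ℝ, δ = min (M - 1 / ((m : ℝ) + 1)) (1 / 3) := ⟨_, rfl⟩
    have hδ0 : 0 < δ := by rw [hδ]; exact lt_min (by linarith) (by norm_num)
    have hδ1 : δ ≤ M - 1 / ((m : ℝ) + 1) := by rw [hδ]; exact min_le_left _ _
    have hδ2 : δ ≤ 1 / 3 := by rw [hδ]; exact min_le_right _ _
    obtain ⟨C2, hC2, h2⟩ := Pool.Agent.V7H9.SN.main_le hm (ε := δ / 2) (by positivity)
      (by linarith)
    obtain ⟨p1, p2⟩ := hpow (δ + 1 / ((m : ℝ) + 1)) (by linarith)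
    refine ⟨C1 + C2, min ν (δ / 2), by positivity, lt_min hν (by positivity), fun X hX => ?_⟩
    have hX0 : 0 < X := by linarith
    have k1 := key _ p1 p2 X hX
    rw [hmt] at k1
    have k2 := h2 δ hδ0 hδ2 X hX
    have e1 : δ + 1 / ((m : ℝ) + 1) - 1 / ((m : ℝ) + 1) = δ := by ring
    rw [e1] at k1
    have k3 : ((exceptions (m + 1) K M X).ncard : ℝ) ≤
        (high (m + 1) K (fun t => t ^ δ) X).ncard := by
      have s1 : exceptions (m + 1) K M X ⊆ high (m + 1) K (fun t => t ^ δ) X := by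
        refine (exc_anti (M := δ + 1 / ((m : ℝ) + 1)) (by linarith)).trans (le_of_eq ?_)
        rw [exc_eq, hn, e1]
      exact_mod_cast Set.ncard_le_ncard s1 ((hfin X).subset fun x hx => hx.1)
    obtain ⟨a1, a2⟩ := abs_le.1 k1
    have q1 : X ^ ((m : ℝ) / (m + 1) - ν) ≤ X ^ ((m : ℝ) / (m + 1) - min ν (δ / 2)) :=
      Real.rpow_le_rpow_of_exponent_le hX (by linarith [min_le_left ν (δ / 2)])
    have q2 : X ^ ((m : ℝ) / (m + 1) - δ + δ / 2) ≤ X ^ ((m : ℝ) / (m + 1) - min ν (δ / 2)) :=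
      Real.rpow_le_rpow_of_exponent_le hX (by linarith [min_le_right ν (δ / 2)])
    have q3 := mul_le_mul_of_nonneg_left q1 hC1.le
    have q4 := mul_le_mul_of_nonneg_left q2 hC2.le
    rw [add_mul]
    linarith
  · have h3 := hlow (M - 1 / ((m : ℝ) + 1)) (by linarith) X hX
    rw [hexp] at h3
    rw [hmt]
    have h4 : 0 < X ^ (1 - M) := by
      have : 0 < X := by linarith
      positivity
    exact (mul_le_mul_of_nonneg_right (min_le_left c1 c2) h4.le).trans h3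
  · rw [G_eq hm1]
    have hz0 : 0 < z := by linarith
    exact (div_le_div_of_nonneg_right (min_le_right c1 c2) hz0.le).trans (hG z hz)
  · obtain ⟨C2, hC2, h2⟩ := Pool.Agent.V7H9.SN.main_le hm hε hε1
    obtain ⟨C3, hC3, h3⟩ := Pool.Agent.V7H9.SN.Gn_upper hm hε hε1
    refine ⟨C2 + C3, by positivity, fun M hM hM3 X hX => ?_, fun z hz => ?_⟩
    · have h4 := h2 (M - 1 / ((m : ℝ) + 1)) (by linarith) (by linarith) X hX
      rw [hexp] at h4
      rw [hmt]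
      have h5 : 0 < X ^ (1 - M + ε) := by
        have : 0 < X := by linarith
        positivity
      refine h4.trans (mul_le_mul_of_nonneg_right ?_ h5.le)
      linarith
    · rw [G_eq hm1]
      refine (h3 z hz).trans (mul_le_mul_of_nonneg_right ?_ (by positivity))
      linarith
  · rw [G_eq hm1]
    rcases le_or_gt 1 z with h | h
    · exact lt_of_lt_of_le (by positivity) (hG z h)
    · have h4 := hG 1 le_rfl
      have h5 := Pool.Agent.V7H9.SN.Gn_anti hm hz.le h.le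
      rw [div_one] at h4
      linarith
  · rw [G_eq hm1, G_eq hm1]
    exact Pool.Agent.V7H9.SN.Gn_anti hm hz.le hzz

end Pool.Agent.Results.MP_7ecdd4_nt.ExceptionAsymptoticsH9
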