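import Pool.Agent.V7H9.SN.Gam

/-!
# The limit law of the pairwise coprime tuples with sum zero ordered by radical

Let `n = m + 1 ≥ 3`. The admissible `n`-tuples (nonzero pairwise coprime integers with sum zero) of
radical at most `X` and height at most `X ^ K`, `K > 1/n` fixed, obey a limit law with a power
saving error term: the repeated part `w = |x_1 ⋯ x_n| / rad (x_1 ⋯ x_n)` and the point
`(x_2, …, x_n) / (w X) ^ (1/n)` of the region `|y_1 ⋯ y_n| ≤ 1`, `y_1 + … + y_n = 0`, are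
independent in the limit, with explicit distributions. In particular the number of the tuples is
`κ X ^ ((n-1)/n) + O (X ^ ((n-1)/n - ν))` with an explicit constant `κ`, an Euler product times
`(2 Γ (1/n) cos (π / (2 n))) ^ n / (π (n - 1))`, the volume of the region.

For a fixed repeated part the tuples are counted by a truncated inclusion-exclusion over the primes
whose square divides `x_1 ⋯ x_n / w` or which divide two entries, with the lattice points of the
regions counted by Fubini (`SN.Lat`, `SN.Reg`, `SN.Eff`). The cusps are bounded by divisor sums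
(`SN.Cusp`, `SN.Vol`), and the tuples of large repeated part by a Cauchy-Schwarz and differencing
argument (`SN.Diff`, `SN.Wide`, `SN.Tail`), together with the bound of the starting library for the
tuples some `n - 1` entries of which have a small radical (`TH867.NA.upper`).
-/

set_option autoImplicit false

namespace Pool.Agent.Results.MP_7ecdd4_nt.LawByRadicalH9

open Finset MeasureTheory

/-- `x` is an admissible tuple: nonzero pairwise coprime integers with sum zero. -/
def Admissible {n : ℕ} (x : Fin n → ℤ) : Prop :=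
  (∀ i, x i ≠ 0) ∧ (∀ i j, i ≠ j → IsCoprime (x i) (x j)) ∧ ∑ i, x i = 0

/-- The radical of the product of all entries: the product of the primes dividing it. -/
def radical {n : ℕ} (x : Fin n → ℤ) : ℕ := ∏ p ∈ (∏ i, x i).natAbs.primeFactors, p

/-- The repeated part `|x_1 ⋯ x_n| / rad (x_1 ⋯ x_n)`. -/
def repeated {n : ℕ} (x : Fin n → ℤ) : ℕ := (∏ i, x i).natAbs / radical x

/-- The admissible `n`-tuples with radical at most `X` and entries at most `X ^ K` in absolute
value. -/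
def Tuples (n : ℕ) (K X : ℝ) : Set (Fin n → ℤ) :=
  {x | Admissible x ∧ (radical x : ℝ) ≤ X ∧ ∀ i, |(x i : ℝ)| ≤ X ^ K}

/-- The point `(x_2, …, x_n) / (w X) ^ (1/n)`, `n = m + 1`, where `w` is the repeated part. -/
noncomputable def scaled {m : ℕ} (X : ℝ) (x : Fin (m + 1) → ℤ) : Fin m → ℝ :=
  fun i => (x i.succ : ℝ) / ((repeated x : ℝ) * X) ^ (1 / ((m : ℝ) + 1))

/-- The `(m + 1)`-tuple with sum zero whose last `m` entries are `y`. -/
def full {m : ℕ} (y : Fin m → ℝ) : Fin (m + 1) → ℝ := Fin.cons (-∑ j, y j) y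

/-- The region `|y_1 ⋯ y_n| ≤ 1` of the space `y_1 + … + y_n = 0`, with the coordinates
`y_2, …, y_n`, `n = m + 1`. -/
def Region (m : ℕ) : Set (Fin m → ℝ) := {y | ∏ i, |full y i| ≤ 1}

/-- `S` is a union of `k` disjoint (possibly empty) intervals. -/
def Intervals (k : ℕ) (S : Set ℝ) : Prop :=
  ∃ f : Fin k → Set ℝ, (∀ j, (f j).OrdConnected) ∧ Pairwise (Function.onFun Disjoint f) ∧
    S = ⋃ j, f j

/-- The proportion `((q - 1) ^ k + (-1) ^ k (q - 1)) / q ^ k` of the `k`-tuples modulo the prime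
`q` with sum zero all of whose entries are invertible, among the `k`-tuples with sum zero. -/
noncomputable def unit (q k : ℕ) : ℝ :=
  (((q : ℝ) - 1) ^ k + (-1) ^ k * ((q : ℝ) - 1)) / (q : ℝ) ^ k

/-- The local density at `q` of the tuples with at most one entry divisible by `q`, and exactly
once. -/
noncomputable def dens (n q : ℕ) : ℝ := unit q n + n * (((q : ℝ) - 1) / (q : ℝ) ^ 2) * unit q (n - 1)

/-- The weight of `w`: `w ^ (-1/n)` times the product over the primes `q ∣ w` of the ratio of the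
local densities. -/
noncomputable def weight (n w : ℕ) : ℝ :=
  (w : ℝ) ^ (-(1 / (n : ℝ))) *
    ∏ q ∈ w.primeFactors, n * (((q : ℝ) - 1) / (q : ℝ) ^ 2) * unit q (n - 1) / dens n q

/-- The constant: `(2 Γ (1/n) cos (π / (2 n))) ^ n / (π (n - 1))` times the product over the primes
`q` of `unit q n + n (q - 1) / q ^ 2 * unit q (n - 1) * (1 + 1 / (q ^ (1/n) - 1))`, `n = m + 1`. -/
noncomputable def κ (m : ℕ) : ℝ :=
  (2 * (Real.Gamma (1 / ((m : ℝ) + 1)) * Real.cos (Real.pi / (2 * ((m : ℝ) + 1))))) ^ (m + 1) /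
    (Real.pi * m) *
  ∏' q : Nat.Primes, (unit q (m + 1) + ((m : ℝ) + 1) * ((((q : ℕ) : ℝ) - 1) / ((q : ℕ) : ℝ) ^ 2) *
    unit q m * (1 + 1 / (((q : ℕ) : ℝ) ^ (1 / ((m : ℝ) + 1)) - 1)))

open Pool.Agent.V7H9.SN in
lemma gu_eq (q k : ℕ) : gu q k = unit q (k + 1) := rfl

open Pool.Agent.V7H9.SN in
lemma dd_eq {m q : ℕ} (hm : 1 ≤ m) : dd m q 0 = dens (m + 1) q := by
  unfold dd dens
  rw [if_pos rfl, gu_eq, gu_eq, zero_add, Nat.sub_add_cancel hm, Nat.add_sub_cancel]
  push_cast
  rfl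

open Pool.Agent.V7H9.SN in
lemma rr_eq {m q : ℕ} (hm : 1 ≤ m) : rr m q =
    ((m + 1 : ℕ) : ℝ) * (((q : ℝ) - 1) / (q : ℝ) ^ 2) * unit q (m + 1 - 1) / dens (m + 1) q := by
  unfold rr
  rw [dd_eq hm, gu_eq, Nat.sub_add_cancel hm, Nat.add_sub_cancel]
  push_cast
  rfl

open Pool.Agent.V7H9.SN in
lemma wgt_eq' {m : ℕ} (hm : 1 ≤ m) (w : ℕ) : wgt m w = weight (m + 1) w := by
  unfold wgt fr weight
  push_cast
  congr 1
  refine prod_congr rfl fun q _ => ?_
  rw [rr_eq hm]
  push_cast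
  rfl

open Pool.Agent.V7H9.SN in
lemma pr_eq' {n : ℕ} (x : Fin n → ℤ) : (∏ i, x i).natAbs = pr x := map_prod Int.natAbsHom _ _

open Pool.Agent.V7H9.SN Pool.Agent.H785R2.ABC in
lemma rad_eq' {n : ℕ} (x : Fin n → ℤ) : radical x = rad (pr x) := by
  unfold radical rad
  rw [pr_eq']

open Pool.Agent.V7H9.SN in
lemma rp_eq' {n : ℕ} (x : Fin n → ℤ) : repeated x = rp x := by
  unfold repeated rp
  rw [rad_eq', pr_eq']

open Pool.Agent.V7H9.SN in
lemma TS_eq' (m : ℕ) (K X : ℝ) (A : ℕ → Set (Fin m → ℝ)) :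
    {x | x ∈ Tuples (m + 1) K X ∧ scaled X x ∈ A (repeated x)} = TS m K X A := by
  ext x
  have h1 : scaled X x = sp X x := by
    unfold scaled sp
    rw [rp_eq']
  unfold TS Tuples
  rw [Set.mem_ofPred_eq, Set.mem_ofPred_eq, Set.mem_ofPred_eq, h1, rp_eq', rad_eq']
  constructor
  · rintro ⟨⟨a1, a2, a3⟩, a4⟩
    exact ⟨a1, a2, a3, a4⟩
  · rintro ⟨a1, a2, a3, a4⟩
    exact ⟨⟨a1, a2, a3⟩, a4⟩

/-- **The limit law of the admissible tuples ordered by radical, with a power saving.** Let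
`n = m + 1 ≥ 3`. The volume of the region is `(2 Γ (1/n) cos (π / (2 n))) ^ n / (π (n - 1))`. The
weights are nonnegative and summable, and for all `K > 1/n` and `k` there are
`C, ν > 0` such that for all `X ≥ 1`:
for ALL families of measurable sets `A (w)`, the sections of which parallel to the axes are unions
of `k` disjoint intervals, the number of the admissible `n`-tuples of radical at most `X` and
height at most `X ^ K` with `(x_2, …, x_n) / (w X) ^ (1/n)` in `A (w)`, `w` the repeated part,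
differs from `X ^ ((n-1)/n) ∑ (∏ dens) weight(w) vol (A (w) ∩ Region)` by at most
`C X ^ ((n-1)/n - ν)`; in particular the number of all the admissible `n`-tuples of radical at most
`X` and height at most `X ^ K` differs from `κ X ^ ((n-1)/n)` by at most `C X ^ ((n-1)/n - ν)`, with
the explicit constant `κ > 0`. -/
theorem result (m : ℕ) (hm : 2 ≤ m) :
    (volume (Region m)).toReal = (2 * (Real.Gamma (1 / ((m : ℝ) + 1)) *
      Real.cos (Real.pi / (2 * ((m : ℝ) + 1))))) ^ (m + 1) / (Real.pi * m) ∧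
    0 < κ m ∧ (∀ w, 0 ≤ weight (m + 1) w) ∧ Summable (weight (m + 1)) ∧
    0 < ∏' q : Nat.Primes, dens (m + 1) q ∧
    ∀ K : ℝ, 1 / ((m : ℝ) + 1) < K → ∀ k : ℕ, ∃ C ν : ℝ, 0 < C ∧ 0 < ν ∧ ∀ X : ℝ, 1 ≤ X →
      (Tuples (m + 1) K X).Finite ∧
      (∀ A : ℕ → Set (Fin m → ℝ), (∀ w, MeasurableSet (A w)) →
        (∀ w (i : Fin m) (y : Fin m → ℝ), Intervals k {t | Function.update y i t ∈ A w}) →
        |(({x | x ∈ Tuples (m + 1) K X ∧ scaled X x ∈ A (repeated x)} : Set _).ncard : ℝ) -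
          X ^ ((m : ℝ) / (m + 1)) * ∑' w : ℕ, (∏' q : Nat.Primes, dens (m + 1) q) *
            weight (m + 1) w * (volume (A w ∩ Region m)).toReal| ≤
          C * X ^ ((m : ℝ) / (m + 1) - ν)) ∧
      |((Tuples (m + 1) K X).ncard : ℝ) - κ m * X ^ ((m : ℝ) / (m + 1))| ≤
        C * X ^ ((m : ℝ) / (m + 1) - ν) := by
  have hm1 : 1 ≤ m := by omega
  have hdens : ∏' q : Nat.Primes, dens (m + 1) q = Pool.Agent.V7H9.SN.C0 m :=
    tprod_congr fun q => (dd_eq hm1).symm
  have hκ : κ m = Pool.Agent.V7H9.SN.VI m *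
      (Pool.Agent.V7H9.SN.C0 m * ∑' w, Pool.Agent.V7H9.SN.wgt m w) := by
    rw [Pool.Agent.V7H9.SN.const_eq hm]
    unfold κ
    rw [Pool.Agent.V7H9.SN.VI_eq hm1]
    congr 1
    refine tprod_congr fun q => ?_
    rw [gu_eq, gu_eq, Nat.sub_add_cancel hm1]
  have hw : weight (m + 1) = Pool.Agent.V7H9.SN.wgt m := by
    funext w
    exact (wgt_eq' hm1 w).symm
  have hVI := Pool.Agent.V7H9.SN.VI_pos hm1
  have hC0 := Pool.Agent.V7H9.SN.C0_pos hm
  have hS := Pool.Agent.V7H9.SN.S_pos hm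
  refine ⟨Pool.Agent.V7H9.SN.VI_eq hm1, ?_, ?_, ?_, ?_, fun K hK k => ?_⟩
  · rw [hκ]
    positivity
  · intro w
    rw [hw]
    exact Pool.Agent.V7H9.SN.wgt_nonneg hm w
  · rw [hw]
    exact Pool.Agent.V7H9.SN.wgt_summable hm
  · rw [hdens]
    exact hC0
  · obtain ⟨C1, ν1, hC1, hν1, h1⟩ := Pool.Agent.V7H9.SN.law hm k hK
    obtain ⟨C2, ν2, hC2, hν2, h2⟩ := Pool.Agent.V7H9.SN.law hm 1 hK
    refine ⟨C1 + C2, min ν1 ν2, by positivity, lt_min hν1 hν2, fun X hX => ?_⟩
    have hX0 : 0 < X := by linarith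
    have k1 : X ^ ((m : ℝ) / (m + 1) - ν1) ≤ X ^ ((m : ℝ) / (m + 1) - min ν1 ν2) :=
      Real.rpow_le_rpow_of_exponent_le hX (by linarith [min_le_left ν1 ν2])
    have k2 : X ^ ((m : ℝ) / (m + 1) - ν2) ≤ X ^ ((m : ℝ) / (m + 1) - min ν1 ν2) :=
      Real.rpow_le_rpow_of_exponent_le hX (by linarith [min_le_right ν1 ν2])
    have k3 := mul_le_mul_of_nonneg_left k1 hC1.le
    have k4 := mul_le_mul_of_nonneg_left k2 hC2.le
    have k5 : 0 ≤ C1 * X ^ ((m : ℝ) / (m + 1) - min ν1 ν2) := by positivity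
    have k6 : 0 ≤ C2 * X ^ ((m : ℝ) / (m + 1) - min ν1 ν2) := by positivity
    have hT : Tuples (m + 1) K X = Pool.Agent.V7H9.SN.TS m K X (fun _ => Set.univ) := by
      rw [← TS_eq']
      ext x
      simp
    refine ⟨?_, fun A hA hsec => ?_, ?_⟩
    · rw [hT]
      exact Pool.Agent.V7H9.SN.TS_finite m K X _
    · have h3 := h1 X A hX hA hsec
      rw [TS_eq']
      have e : X ^ ((m : ℝ) / (m + 1)) * ∑' w : ℕ, (∏' q : Nat.Primes, dens (m + 1) q) *
            weight (m + 1) w * (volume (A w ∩ Region m)).toReal =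
          X ^ ((m : ℝ) / (m + 1)) * Pool.Agent.V7H9.SN.LM m A := by
        rw [hdens, hw]
        rfl
      rw [e, add_mul]
      linarith
    · have h3 := h2 X (fun _ => Set.univ) hX (fun _ => MeasurableSet.univ)
        (fun _ _ _ => Pool.Agent.V7H9.SN.nice_ord Set.ordConnected_univ)
      rw [Pool.Agent.V7H9.SN.LM_univ, ← hκ, ← hT, mul_comm (X ^ ((m : ℝ) / (m + 1)))] at h3
      rw [add_mul]
      linarith

end Pool.Agent.Results.MP_7ecdd4_nt.LawByRadicalH9
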