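import Pool.Agent.R482.ST.Star
import Pool.Agent.Results.MP_7ecdd4_nt.SimultaneousApproximations

/-!
# The strong `n`-conjecture near powers, orbits and other sequences

Let `f_k`, `k = 0, 1, 2, …`, be positive functions on `(a, ∞)`, `a ≥ 0`, such that `f_k(t) / t` is nondecreasing, and such
that the sequence `f_k(t)` has exponent of convergence at most `τ` for each `t > a`: for instance `f_k(t) = t ^ (v_k)` for
exponents `v_k ≥ 1` (`τ = 0`; all powers, the powers `t ^ (3 ^ k)` of Mills, …), the orbits `f_k(t) = g (g (⋯ g (t)))` of any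
map `g` with `g(t) > t` and `g(t) / t` nondecreasing (`τ = 0`), and `f_k(t) = v_k t` (the starting file `DivisorsInWindows` has
this last case only). Let `θ < 1`.

For all `α > a` outside a set of Hausdorff dimension at most `τ / (1 - θ)`, so outside a set of dimension zero for powers and
orbits, there is for all `c`, `n ≥ 4` and `A` an `M` such that for ALL `k` EVERY tuple `x` of nonzero pairwise coprime integers
with sum zero, for which `x_1 ⋯ x_n` has a divisor `r` with `|r - f_k(α)| ≤ c f_k(α) ^ θ` and `max |x_j| ≤ r ^ A`, satisfies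
`max |x_j| ≤ rad (x_1 ⋯ x_n) ^ M`. In particular this holds for all the tuples of a height within `c f_k(α) ^ θ` of `f_k(α)`. For
a given `M` it holds for all but finitely many `k` if `α` is outside a set of dimension at most `(A s + τ) / (1 - θ)`,
`s = (3 n - 5) / ((3 n - 2) M)`.
-/

set_option autoImplicit false

namespace Pool.Agent.Results.MP_7ecdd4_nt.StarshapedDivisorsH35

open Finset
open Pool.Agent.Results.MP_7ecdd4_nt.DivisorsInWindows (Admissible rad height Good hcount κ_nonneg)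
open Pool.Agent.Results.MP_7ecdd4_nt.SimultaneousApproximations (good_height good_anti good_mono)

/-- the functions `f n` are positive on `(a, ∞)`, `a ≥ 0`, and `f n x / x` is nondecreasing there -/
def Starshaped (a : ℝ) (f : ℕ → ℝ → ℝ) : Prop :=
  0 ≤ a ∧ ∀ n : ℕ, ∀ x y : ℝ, a < x → x ≤ y → 0 < f n x ∧ f n x / x ≤ f n y / y

/-- for each `x > a` the exponent of convergence of the sequence `f n x` is at most `τ` -/
def ExpLe (a : ℝ) (f : ℕ → ℝ → ℝ) (τ : ℝ) : Prop :=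
  ∀ x : ℝ, a < x → ∀ t : ℝ, τ < t → Summable (fun n : ℕ => (f n x) ^ (-t))

/-- one exponent `M` -/
theorem fixed {n : ℕ} (hn : 4 ≤ n) {a : ℝ} {f : ℕ → ℝ → ℝ} {τ θ : ℝ} (hf : Starshaped a f) (hτ : 0 ≤ τ)
    (hE : ExpLe a f τ) (hθ : θ < 1) {A M : ℝ} (hA : 0 < A) (hM : 10 / (3 * (n : ℝ) - 2) ≤ M) :
    ∃ E : Set ℝ,
      dimH E ≤ ENNReal.ofReal ((A * ((3 * (n : ℝ) - 5) / (3 * (n : ℝ) - 2) / M) + τ) / (1 - θ)) ∧
      ∀ α : ℝ, a < α → α ∉ E → ∀ c : ℝ, ∃ k₀ : ℕ, ∀ k : ℕ, k₀ ≤ k →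
        ∀ r : ℕ, |(r : ℝ) - f k α| ≤ c * (f k α) ^ θ → Good n A M r := by
  have h4 : (4 : ℝ) ≤ n := by exact_mod_cast hn
  have hs0 : 0 ≤ (3 * (n : ℝ) - 5) / (3 * (n : ℝ) - 2) / M :=
    div_nonneg (κ_nonneg hn) (le_trans (div_nonneg (by norm_num) (by linarith)) hM)
  have hcd := Pool.Agent.R559.NP.count_div (n := n)
    (Bad := fun x : Fin n → ℤ => Admissible x ∧ ¬ height x ≤ (rad x : ℝ) ^ M)
    (fun x hx => hx.1.1) hA (fun δ hδ => hcount hn hM δ hδ)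
  obtain ⟨E, hE1, hE2⟩ := Pool.Agent.R482.ST.win_nat (Pool.Agent.R559.NP.DivBad
    (fun x : Fin n → ℤ => Admissible x ∧ ¬ height x ≤ (rad x : ℝ) ^ M) A) hf hτ hE
    (mul_nonneg hA.le hs0) hθ (fun ε hε => by
      obtain ⟨C, hC⟩ := hcd ε hε
      refine ⟨C, fun X hX => le_trans (le_of_eq ?_) (hC X hX)⟩
      congr!)
  refine ⟨E, hE1, fun α hα hαE c => ?_⟩
  obtain ⟨k₀, hk⟩ := hE2 α hα hαE c
  refine ⟨k₀, fun k hk1 r hr x hx hd hh => ?_⟩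
  by_contra hcon
  exact (hk k hk1 r hr).2 ⟨x, ⟨hx, hcon⟩, hh, hd⟩

/-- some exponent `M`, for all `n` -/
theorem some_exponent {a : ℝ} {f : ℕ → ℝ → ℝ} {τ θ : ℝ} (hf : Starshaped a f) (hτ : 0 ≤ τ)
    (hE : ExpLe a f τ) (hθ : θ < 1) :
    ∃ E : Set ℝ, dimH E ≤ ENNReal.ofReal (τ / (1 - θ)) ∧
      ∀ α : ℝ, a < α → α ∉ E → ∀ (c : ℝ) (n : ℕ), 4 ≤ n → ∀ A : ℝ, ∃ M : ℝ, ∀ k r : ℕ,
        |(r : ℝ) - f k α| ≤ c * (f k α) ^ θ → Good n A M r := by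
  have hfix : ∀ p : ℕ × ℕ × ℕ, ∃ E : Set ℝ,
      dimH E ≤ ENNReal.ofReal (((((p.2.1 + 1 : ℕ) : ℝ) * ((3 * ((p.1 + 4 : ℕ) : ℝ) - 5) /
        (3 * ((p.1 + 4 : ℕ) : ℝ) - 2) / ((p.2.2 + 1 : ℕ) : ℝ))) + τ) / (1 - θ)) ∧
      ∀ α : ℝ, a < α → α ∉ E → ∀ c : ℝ, ∃ k₀ : ℕ, ∀ k : ℕ, k₀ ≤ k →
        ∀ r : ℕ, |(r : ℝ) - f k α| ≤ c * (f k α) ^ θ →
          Good (p.1 + 4) ((p.2.1 + 1 : ℕ) : ℝ) ((p.2.2 + 1 : ℕ) : ℝ) r := by
    intro p
    refine fixed (by omega) hf hτ hE hθ (by positivity) ?_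
    have h1 : (1 : ℝ) ≤ ((p.2.2 + 1 : ℕ) : ℝ) := by
      push_cast
      have : (0 : ℝ) ≤ (p.2.2 : ℝ) := Nat.cast_nonneg _
      linarith
    refine le_trans ?_ h1
    have h2 : (0 : ℝ) ≤ (p.1 : ℝ) := Nat.cast_nonneg _
    rw [div_le_one (by push_cast; linarith)]
    push_cast
    linarith
  choose E hE1 hE2 using hfix
  refine ⟨⋃ p : ℕ × ℕ, ⋂ b : ℕ, E (p.1, p.2, b), ?_, ?_⟩
  · rw [dimH_iUnion]
    refine iSup_le fun p => ?_
    have hle : ∀ b : ℕ, dimH (⋂ b : ℕ, E (p.1, p.2, b)) ≤ ENNReal.ofReal (((((p.2 + 1 : ℕ) : ℝ) *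
        ((3 * ((p.1 + 4 : ℕ) : ℝ) - 5) / (3 * ((p.1 + 4 : ℕ) : ℝ) - 2) / ((b + 1 : ℕ) : ℝ))) + τ) / (1 - θ)) :=
      fun b => (dimH_mono (Set.iInter_subset _ b)).trans (hE1 (p.1, p.2, b))
    have hlim : Filter.Tendsto (fun b : ℕ => ENNReal.ofReal (((((p.2 + 1 : ℕ) : ℝ) *
        ((3 * ((p.1 + 4 : ℕ) : ℝ) - 5) / (3 * ((p.1 + 4 : ℕ) : ℝ) - 2) / ((b + 1 : ℕ) : ℝ))) + τ) / (1 - θ)))
        Filter.atTop (nhds (ENNReal.ofReal (((((p.2 + 1 : ℕ) : ℝ) * 0) + τ) / (1 - θ)))) := by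
      refine ENNReal.tendsto_ofReal (Filter.Tendsto.div_const (Filter.Tendsto.add_const _
        (Filter.Tendsto.const_mul _ ?_)) _)
      exact (Filter.tendsto_add_atTop_iff_nat 1).2
        (tendsto_const_div_atTop_nhds_zero_nat ((3 * ((p.1 + 4 : ℕ) : ℝ) - 5) / (3 * ((p.1 + 4 : ℕ) : ℝ) - 2)))
    have := ge_of_tendsto' hlim hle
    rwa [mul_zero, zero_add] at this
  · intro α hα hαE c n hn A
    obtain ⟨n', rfl⟩ : ∃ n', n = n' + 4 := ⟨n - 4, by omega⟩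
    obtain ⟨A', hA'⟩ : ∃ A' : ℕ, A ≤ ((A' + 1 : ℕ) : ℝ) := by
      obtain ⟨k, hk⟩ := exists_nat_ge A
      exact ⟨k, hk.trans (by push_cast; linarith)⟩
    rw [Set.mem_iUnion] at hαE
    push Not at hαE
    have h1 := hαE (n', A')
    rw [Set.mem_iInter] at h1
    push Not at h1
    obtain ⟨b, hb⟩ := h1
    obtain ⟨Q, hQ⟩ := hE2 (n', A', b) α hα hb c
    -- the small `k`
    obtain ⟨B, hB⟩ : ∃ B : ℕ, ∀ q : ℕ, q < Q → ∀ r : ℕ, |(r : ℝ) - f q α| ≤ c * (f q α) ^ θ → r ≤ B := by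
      obtain ⟨B, hB⟩ : ∃ B : ℕ, ∀ q ∈ Finset.range Q, ⌈f q α + c * (f q α) ^ θ⌉₊ ≤ B :=
        ⟨(Finset.range Q).sup fun q => ⌈f q α + c * (f q α) ^ θ⌉₊, fun q hq =>
          Finset.le_sup (f := fun q : ℕ => ⌈f q α + c * (f q α) ^ θ⌉₊) hq⟩
      refine ⟨B, fun q hq r hr => ?_⟩
      have h2 := (abs_le.1 hr).2
      have h3 : (r : ℝ) ≤ f q α + c * (f q α) ^ θ := by linarith
      have h4 : (r : ℝ) ≤ (⌈f q α + c * (f q α) ^ θ⌉₊ : ℝ) := h3.trans (Nat.le_ceil _)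
      have h5 : r ≤ ⌈f q α + c * (f q α) ^ θ⌉₊ := by exact_mod_cast h4
      exact h5.trans (hB q (Finset.mem_range.2 hq))
    obtain ⟨M', hM'⟩ := Pool.Agent.R559.NP.good_small (n := n' + 4) (by omega) A B
    refine ⟨max M' ((b + 1 : ℕ) : ℝ), fun q r hr => ?_⟩
    rcases lt_or_ge q Q with hq | hq
    · refine good_mono (le_max_left _ _) fun x hx hd hh => ?_
      exact hM' r (hB q hq r hr) x hx.1 hd hh
    · exact good_mono (le_max_right _ _) (good_anti hA' (hQ q hq r hr))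

/-- **The strong `n`-conjecture near powers, orbits and other sequences.** Let `f` be starshaped functions on `(a, ∞)` of
exponent of convergence at most `τ ≥ 0` and `θ < 1`. (1) For all `α > a` outside a set of Hausdorff dimension at most
`τ / (1 - θ)`, all `c`, all `n ≥ 4` and all `A` there is `M` such that for ALL `k` EVERY tuple `x` of `n` nonzero pairwise coprime
integers with sum zero satisfies `max |x_j| ≤ rad (x_1 ⋯ x_n) ^ M` if `x_1 ⋯ x_n` has a divisor `r` with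
`|r - f_k(α)| ≤ c f_k(α) ^ θ`, `max |x_j| ≤ r ^ A`, or if `|max |x_j| - f_k(α)| ≤ c f_k(α) ^ θ`. (2) For all `n ≥ 4`, `A > 0`,
`M ≥ 10 / (3 n - 2)`, for all `α > a` outside a set of dimension at most `(A s + τ) / (1 - θ)`, `s = (3 n - 5) / ((3 n - 2) M)`, and
all `c`, for all large `k` EVERY such tuple satisfies `max |x_j| ≤ rad (x_1 ⋯ x_n) ^ M` if `x_1 ⋯ x_n` has a divisor `r` with
`|r - f_k(α)| ≤ c f_k(α) ^ θ`, `max |x_j| ≤ r ^ A`, or if `A ≥ 1` and `|max |x_j| - f_k(α)| ≤ c f_k(α) ^ θ`.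
(3) - (5) The functions `v_n x`, `v_n > 0`, are starshaped on `(0, ∞)`, of exponent `τ` if `v` has exponent of convergence at
most `τ`; the functions `x ^ (v_n)`, `v_n ≥ 1`, are starshaped on `(1, ∞)`, of exponent `0` if the sums of `exp (-t v_n)`
converge for `t > 0`; and the iterates of a map `g` with `g(x) > x` for `x > a` and `g(x) / x` nondecreasing are starshaped on
`(a, ∞)`, of exponent `0`. -/
theorem result :
    (∀ (a : ℝ) (f : ℕ → ℝ → ℝ) (τ θ : ℝ), Starshaped a f → 0 ≤ τ → ExpLe a f τ → θ < 1 →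
      ∃ E : Set ℝ, dimH E ≤ ENNReal.ofReal (τ / (1 - θ)) ∧
        ∀ α : ℝ, a < α → α ∉ E → ∀ (c : ℝ) (n : ℕ), 4 ≤ n → ∀ A : ℝ, ∃ M : ℝ, ∀ k : ℕ,
          (∀ r : ℕ, |(r : ℝ) - f k α| ≤ c * (f k α) ^ θ → Good n A M r) ∧
          ∀ x : Fin n → ℤ, Admissible x → |height x - f k α| ≤ c * (f k α) ^ θ → height x ≤ (rad x : ℝ) ^ M) ∧
    (∀ n : ℕ, 4 ≤ n → ∀ (a : ℝ) (f : ℕ → ℝ → ℝ) (τ θ : ℝ), Starshaped a f → 0 ≤ τ → ExpLe a f τ → θ < 1 →
      ∀ A M : ℝ, 0 < A → 10 / (3 * (n : ℝ) - 2) ≤ M →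
      ∃ E : Set ℝ,
        dimH E ≤ ENNReal.ofReal ((A * ((3 * (n : ℝ) - 5) / (3 * (n : ℝ) - 2) / M) + τ) / (1 - θ)) ∧
        ∀ α : ℝ, a < α → α ∉ E → ∀ c : ℝ, ∃ k₀ : ℕ, ∀ k : ℕ, k₀ ≤ k →
          (∀ r : ℕ, |(r : ℝ) - f k α| ≤ c * (f k α) ^ θ → Good n A M r) ∧
          (1 ≤ A → ∀ x : Fin n → ℤ, Admissible x → |height x - f k α| ≤ c * (f k α) ^ θ →
            height x ≤ (rad x : ℝ) ^ M)) ∧
    (∀ (v : ℕ → ℝ) (τ : ℝ), (∀ n, 0 < v n) → (∀ t : ℝ, τ < t → Summable (fun n : ℕ => (v n) ^ (-t))) →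
      Starshaped 0 (fun n x => v n * x) ∧ ExpLe 0 (fun n x => v n * x) τ) ∧
    (∀ v : ℕ → ℝ, (∀ n, 1 ≤ v n) → (∀ t : ℝ, 0 < t → Summable fun n : ℕ => Real.exp (-(t * v n))) →
      Starshaped 1 (fun n x => x ^ (v n)) ∧ ExpLe 1 (fun n x => x ^ (v n)) 0) ∧
    (∀ (a : ℝ) (g : ℝ → ℝ), 0 ≤ a → (∀ x y : ℝ, a < x → x ≤ y → g x / x ≤ g y / y) → (∀ x : ℝ, a < x → x < g x) →
      Starshaped a (fun n x => g^[n] x) ∧ ExpLe a (fun n x => g^[n] x) 0) := by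
  refine ⟨fun a f τ θ hf hτ hE hθ => ?_, fun n hn a f τ θ hf hτ hE hθ A M hA hM => ?_,
    Pool.Agent.R482.ST.ex_mul, Pool.Agent.R482.ST.ex_pow, Pool.Agent.R482.ST.ex_orbit⟩
  · obtain ⟨E, hE1, hE2⟩ := some_exponent hf hτ hE hθ
    refine ⟨E, hE1, fun α hα hαE c n hn A => ?_⟩
    obtain ⟨M, hM⟩ := hE2 α hα hαE c n hn (max A 1)
    exact ⟨M, fun k => ⟨fun r hr => good_anti (le_max_left _ _) (hM k r hr),
      fun x hx hy => good_height (by omega) (le_max_right _ _) (hM k) x hx hy⟩⟩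
  · obtain ⟨E, hE1, hE2⟩ := fixed hn hf hτ hE hθ hA hM
    refine ⟨E, hE1, fun α hα hαE c => ?_⟩
    obtain ⟨k₀, hk⟩ := hE2 α hα hαE c
    exact ⟨k₀, fun k hk1 => ⟨hk k hk1, fun hA1 x hx hy => good_height (by omega) hA1 (hk k hk1) x hx hy⟩⟩

end Pool.Agent.Results.MP_7ecdd4_nt.StarshapedDivisorsH35
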